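import Pool.Agent.W245.AL.Stm

set_option autoImplicit false

open Filter Topology

namespace Pool.Agent.W245.AL

namespace CNV

theorem H_succ (l : ℕ × ℤˣ) (s : List (ℕ × ℤˣ)) (N : ℕ) :
    H (l :: s) (N + 1) = H (l :: s) N +
      ((((l.2 : ℤˣ) : ℤ) : ℝ) ^ (N + 1) / ((N : ℝ) + 1) ^ l.1) * H s N := by
  simp only [H]
  rw [Finset.sum_range_succ]

theorem abs_unit_pow (z : ℤˣ) (n : ℕ) : |(((z : ℤˣ) : ℤ) : ℝ) ^ n| = 1 := by
  rw [abs_pow]
  rcases Int.units_eq_one_or z with rfl | rfl <;> simp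

theorem bdd (f : ℕ → ℝ) (x : ℝ) (h : Tendsto f atTop (𝓝 x)) :
    ∃ C : ℝ, 0 ≤ C ∧ ∀ n, |f n| ≤ C := by
  obtain ⟨C, hC⟩ := (Metric.isBounded_range_of_tendsto f h).exists_norm_le
  refine ⟨C, le_trans (norm_nonneg _) (hC (f 0) ⟨0, rfl⟩), fun n => ?_⟩
  simpa using hC (f n) ⟨n, rfl⟩

theorem summ (C : ℝ) : Summable (fun n : ℕ => C * (1 / ((n : ℝ) + 1) ^ 2)) := by
  have h1 : Summable (fun n : ℕ => 1 / (n : ℝ) ^ 2) :=
    Real.summable_one_div_nat_pow.2 (by norm_num)
  have h2 := (summable_nat_add_iff 1).2 h1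
  have h3 : Summable (fun n : ℕ => 1 / ((n : ℝ) + 1) ^ 2) := by
    refine h2.congr fun n => ?_
    push_cast
    ring
  exact h3.mul_left C

theorem conv (f : ℕ → ℝ) (C : ℝ) (h : ∀ n : ℕ, |f n| ≤ C * (1 / ((n : ℝ) + 1) ^ 2)) :
    ∃ x : ℝ, Tendsto (fun N => ∑ n ∈ Finset.range N, f n) atTop (𝓝 x) := by
  have hs : Summable f := Summable.of_norm_bounded (summ C) (fun n => by simpa using h n)
  exact ⟨_, hs.hasSum.tendsto_sum_nat⟩

theorem parts (a : ℕ → ℝ) (N : ℕ) :
    ∑ n ∈ Finset.range N, (-1 : ℝ) ^ (n + 1) * a n =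
      (-1 : ℝ) ^ N / 2 * a N - 1 / 2 * a 0 -
        ∑ n ∈ Finset.range N, (-1 : ℝ) ^ (n + 1) / 2 * (a (n + 1) - a n) := by
  induction N with
  | zero => simp
  | succ N ih =>
    rw [Finset.sum_range_succ, Finset.sum_range_succ, ih]
    rw [pow_succ]
    ring

theorem main (s : List (ℕ × ℤˣ)) (hs : ∀ l ∈ s, Good l) :
    (∃ x : ℝ, Tendsto (H s) atTop (𝓝 x)) ∧
      ∃ C : ℝ, 0 ≤ C ∧ ∀ n : ℕ, |H s (n + 1) - H s n| ≤ C / ((n : ℝ) + 1) := by
  induction s with
  | nil =>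
    refine ⟨⟨1, ?_⟩, 0, le_rfl, fun n => by simp [H]⟩
    have : H [] = fun _ => (1 : ℝ) := by funext n; simp [H]
    rw [this]
    exact tendsto_const_nhds
  | cons l s ih =>
    obtain ⟨⟨x, hx⟩, C, hC0, hC⟩ := ih (fun m hm => hs m (by simp [hm]))
    obtain ⟨B, hB0, hB⟩ := bdd _ x hx
    have hl : Good l := hs l (by simp)
    have hl1 : 1 ≤ l.1 := by
      rcases hl with h | h
      · omega
      · omega
    refine ⟨?_, B, hB0, fun n => ?_⟩
    · have hH : H (l :: s) = fun N => ∑ n ∈ Finset.range N,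
          ((((l.2 : ℤˣ) : ℤ) : ℝ) ^ (n + 1) / ((n : ℝ) + 1) ^ l.1) * H s n := by
        funext N; simp [H]
      rw [hH]
      rcases hl with h | ⟨h1, h2⟩
      · refine conv _ B fun n => ?_
        have hn : (1 : ℝ) ≤ (n : ℝ) + 1 := by
          have : (0 : ℝ) ≤ (n : ℝ) := Nat.cast_nonneg n
          linarith
        rw [abs_mul, abs_div, abs_unit_pow, abs_of_pos (by positivity : (0 : ℝ) < ((n : ℝ) + 1) ^ l.1)]
        have h3 : 1 / ((n : ℝ) + 1) ^ l.1 ≤ 1 / ((n : ℝ) + 1) ^ 2 :=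
          one_div_le_one_div_of_le (by positivity) (pow_le_pow_right₀ hn h)
        calc 1 / ((n : ℝ) + 1) ^ l.1 * |H s n| ≤ 1 / ((n : ℝ) + 1) ^ 2 * B :=
              mul_le_mul h3 (hB n) (abs_nonneg _) (by positivity)
          _ = B * (1 / ((n : ℝ) + 1) ^ 2) := by ring
      · have he : (fun N : ℕ => ∑ n ∈ Finset.range N,
            ((((l.2 : ℤˣ) : ℤ) : ℝ) ^ (n + 1) / ((n : ℝ) + 1) ^ l.1) * H s n) =
            fun N : ℕ => ((-1 : ℝ) ^ N / 2 * (H s N / ((N : ℝ) + 1)) -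
              1 / 2 * (H s 0 / (((0 : ℕ) : ℝ) + 1)) -
              ∑ n ∈ Finset.range N, (-1 : ℝ) ^ (n + 1) / 2 *
                (H s (n + 1) / (((n + 1 : ℕ) : ℝ) + 1) - H s n / ((n : ℝ) + 1))) := by
          funext N
          rw [← parts (fun n => H s n / ((n : ℝ) + 1)) N]
          refine Finset.sum_congr rfl fun n _ => ?_
          rw [h1, h2]
          push_cast
          ring
        rw [he]
        have hc : ∃ y : ℝ, Tendsto (fun N => ∑ n ∈ Finset.range N, (-1 : ℝ) ^ (n + 1) / 2 *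
                (H s (n + 1) / (((n + 1 : ℕ) : ℝ) + 1) - H s n / ((n : ℝ) + 1))) atTop (𝓝 y) := by
          refine conv _ (C + B) fun n => ?_
          have hn : (0 : ℝ) ≤ (n : ℝ) := Nat.cast_nonneg n
          have hp : (0 : ℝ) < (n : ℝ) + 1 := by linarith
          have hp2 : (0 : ℝ) < (n : ℝ) + 1 + 1 := by linarith
          have e1 : H s (n + 1) / (((n + 1 : ℕ) : ℝ) + 1) - H s n / ((n : ℝ) + 1) =
              (H s (n + 1) - H s n) / ((n : ℝ) + 1 + 1) -
                H s n * (1 / (((n : ℝ) + 1) * ((n : ℝ) + 1 + 1))) := by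
            push_cast
            field_simp
            ring
          rw [e1, abs_mul]
          have e2 : |(-1 : ℝ) ^ (n + 1) / 2| = 1 / 2 := by
            rw [abs_div, abs_pow]
            simp
          rw [e2]
          have e3 : |(H s (n + 1) - H s n) / ((n : ℝ) + 1 + 1)| ≤ C * (1 / ((n : ℝ) + 1) ^ 2) := by
            rw [abs_div, abs_of_pos hp2]
            calc |H s (n + 1) - H s n| / ((n : ℝ) + 1 + 1)
                ≤ (C / ((n : ℝ) + 1)) / ((n : ℝ) + 1) :=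
                  div_le_div₀ (by positivity) (hC n) hp (by linarith)
              _ = C * (1 / ((n : ℝ) + 1) ^ 2) := by field_simp
          have e4 : |H s n * (1 / (((n : ℝ) + 1) * ((n : ℝ) + 1 + 1)))| ≤
              B * (1 / ((n : ℝ) + 1) ^ 2) := by
            rw [abs_mul, abs_of_pos (by positivity : (0 : ℝ) < 1 / (((n : ℝ) + 1) * ((n : ℝ) + 1 + 1)))]
            refine mul_le_mul (hB n) (one_div_le_one_div_of_le (by positivity) ?_) (by positivity) hB0
            nlinarith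
          have e5 := abs_sub ((H s (n + 1) - H s n) / ((n : ℝ) + 1 + 1))
            (H s n * (1 / (((n : ℝ) + 1) * ((n : ℝ) + 1 + 1))))
          have e6 : 0 ≤ |(H s (n + 1) - H s n) / ((n : ℝ) + 1 + 1) -
            H s n * (1 / (((n : ℝ) + 1) * ((n : ℝ) + 1 + 1)))| := abs_nonneg _
          nlinarith
        obtain ⟨y, hy⟩ := hc
        refine ⟨0 - 1 / 2 * (H s 0 / (((0 : ℕ) : ℝ) + 1)) - y, ?_⟩
        refine Tendsto.sub (Tendsto.sub ?_ tendsto_const_nhds) hy
        have h5 : Tendsto (fun N : ℕ => B * (1 / ((N : ℝ) + 1))) atTop (𝓝 0) := by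
          have := (tendsto_one_div_add_atTop_nhds_zero_nat (𝕜 := ℝ)).const_mul B
          simpa using this
        refine squeeze_zero_norm (fun N => ?_) h5
        have hp : (0 : ℝ) < (N : ℝ) + 1 := by positivity
        rw [Real.norm_eq_abs, abs_mul, abs_div, abs_pow, abs_div, abs_of_pos hp]
        simp only [abs_neg, abs_one, one_pow, Nat.abs_ofNat]
        have h6 : |H s N| / ((N : ℝ) + 1) ≤ B * (1 / ((N : ℝ) + 1)) := by
          rw [mul_one_div]
          exact div_le_div_of_nonneg_right (hB N) hp.le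
        have h7 : 0 ≤ |H s N| / ((N : ℝ) + 1) := by positivity
        linarith
    · have hn : (1 : ℝ) ≤ (n : ℝ) + 1 := by
        have : (0 : ℝ) ≤ (n : ℝ) := Nat.cast_nonneg n
        linarith
      rw [H_succ, add_sub_cancel_left, abs_mul, abs_div, abs_unit_pow,
        abs_of_pos (by positivity : (0 : ℝ) < ((n : ℝ) + 1) ^ l.1)]
      have h3 : 1 / ((n : ℝ) + 1) ^ l.1 ≤ 1 / ((n : ℝ) + 1) := by
        refine one_div_le_one_div_of_le (by positivity) ?_
        exact le_self_pow₀ hn (by omega)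
      calc 1 / ((n : ℝ) + 1) ^ l.1 * |H s n| ≤ 1 / ((n : ℝ) + 1) * B :=
            mul_le_mul h3 (hB n) (abs_nonneg _) (by positivity)
        _ = B / ((n : ℝ) + 1) := by ring

end CNV

/-- convergence of the alternating multiple sums -/
theorem t_cnv : S_CNV := fun s hs => (CNV.main s hs).1

end Pool.Agent.W245.AL
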