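import Pool.Agent.W245.AL.Stm

set_option autoImplicit false

/-! AL-LOG (helper283): the alternating harmonic series and the Basel sum. -/

open Filter Topology

namespace Pool.Agent.W245.AL

namespace LOG

/-- partial sums of the alternating harmonic series -/
noncomputable def A (N : ℕ) : ℝ := ∑ n ∈ Finset.range N, (-1 : ℝ) ^ (n + 1) / ((n : ℝ) + 1)

lemma H_eq (N : ℕ) : H [(1, -1)] N = A N := by
  unfold H A
  apply Finset.sum_congr rfl
  intro n _
  simp [H]

lemma A_even (N : ℕ) : A (2 * N) = (harmonic N : ℝ) - (harmonic (2 * N) : ℝ) := by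
  induction N with
  | zero => simp [A]
  | succ N ih =>
    have e1 : A (2 * (N + 1)) = A (2 * N) - 1 / (2 * (N : ℝ) + 1) + 1 / (2 * (N : ℝ) + 2) := by
      unfold A
      rw [show 2 * (N + 1) = 2 * N + 1 + 1 by ring, Finset.sum_range_succ, Finset.sum_range_succ]
      have h1 : (-1 : ℝ) ^ (2 * N + 1) = -1 := by rw [pow_succ, pow_mul]; norm_num
      have h2 : (-1 : ℝ) ^ (2 * N + 1 + 1) = 1 := by rw [pow_succ, h1]; norm_num
      rw [h1, h2]
      push_cast
      rw [show (2 * (N : ℝ) + 1 + 1) = 2 * N + 2 by ring]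
      ring
    have e2 : (harmonic (2 * (N + 1)) : ℝ) = (harmonic (2 * N) : ℝ) + 1 / (2 * (N : ℝ) + 1)
        + 1 / (2 * (N : ℝ) + 2) := by
      rw [show 2 * (N + 1) = 2 * N + 1 + 1 by ring, harmonic_succ, harmonic_succ]
      push_cast
      rw [show (2 * (N : ℝ) + 1 + 1) = 2 * N + 2 by ring]
      ring
    have e3 : (harmonic (N + 1) : ℝ) = (harmonic N : ℝ) + 1 / ((N : ℝ) + 1) := by
      rw [harmonic_succ]
      push_cast
      ring
    rw [e1, e2, e3, ih]
    have h1 : (2 * (N : ℝ) + 1) ≠ 0 := by positivity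
    have h2 : (2 * (N : ℝ) + 2) ≠ 0 := by positivity
    have h3 : ((N : ℝ) + 1) ≠ 0 := by positivity
    field_simp
    ring

lemma tendsto_even : Tendsto (fun N : ℕ => A (2 * N)) atTop (𝓝 (-Real.log 2)) := by
  have h := Real.tendsto_harmonic_sub_log
  have h2 : Tendsto (fun N : ℕ => 2 * N) atTop atTop :=
    tendsto_id.const_mul_atTop' (by norm_num)
  have h3 := h.comp h2
  have h4 := (h.sub h3).sub (tendsto_const_nhds (x := Real.log 2))
  rw [sub_self, zero_sub] at h4
  refine h4.congr' ?_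
  filter_upwards [eventually_ge_atTop 1] with N hN
  have hN0 : (N : ℝ) ≠ 0 := by
    have : 0 < N := hN
    exact_mod_cast this.ne'
  rw [A_even]
  simp only [Function.comp]
  push_cast
  rw [Real.log_mul (by norm_num) hN0]
  ring

lemma A_odd (N : ℕ) : A (2 * N + 1) = A (2 * N) - 1 / (2 * (N : ℝ) + 1) := by
  unfold A
  rw [Finset.sum_range_succ]
  have h1 : (-1 : ℝ) ^ (2 * N + 1) = -1 := by rw [pow_succ, pow_mul]; norm_num
  rw [h1]
  push_cast
  ring

lemma tendsto_half : Tendsto (fun N : ℕ => N / 2) atTop atTop := by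
  refine tendsto_atTop.2 fun b => ?_
  filter_upwards [eventually_ge_atTop (2 * b)] with N hN
  omega

lemma A_near (N : ℕ) : |A N - A (2 * (N / 2))| ≤ 1 / (N : ℝ) := by
  rcases Nat.even_or_odd' N with ⟨k, hk | hk⟩
  · have : 2 * (N / 2) = N := by omega
    rw [this, sub_self, abs_zero]
    positivity
  · have h1 : N / 2 = k := by omega
    rw [h1, hk, A_odd]
    push_cast
    rw [show A (2 * k) - 1 / (2 * (k : ℝ) + 1) - A (2 * k) = -(1 / (2 * (k : ℝ) + 1)) by ring,
      abs_neg, abs_of_nonneg (by positivity)]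

end LOG

open LOG

theorem t_log : S_LOG := by
  unfold S_LOG
  have h1 : Tendsto (fun N : ℕ => A (2 * (N / 2))) atTop (𝓝 (-Real.log 2)) :=
    tendsto_even.comp tendsto_half
  have h2 : Tendsto (fun N : ℕ => A N - A (2 * (N / 2))) atTop (𝓝 0) := by
    rw [tendsto_zero_iff_abs_tendsto_zero]
    exact squeeze_zero (fun N => abs_nonneg _) A_near tendsto_one_div_atTop_nhds_zero_nat
  have h3 := h2.add h1
  rw [zero_add] at h3
  refine h3.congr fun N => ?_
  rw [H_eq]
  ring

theorem t_pi : S_PI := by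
  unfold S_PI
  have h := hasSum_zeta_two.tendsto_sum_nat
  have h2 := h.comp (tendsto_add_atTop_nat 1)
  refine h2.congr fun N => ?_
  simp only [Function.comp]
  rw [Finset.sum_range_succ']
  unfold H
  simp [H]

end Pool.Agent.W245.AL
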