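import Mathlib

set_option autoImplicit false

/-!
# Alternating multiple zeta values: statements of the parts

A letter `(a, z)` (`a : ℕ`, `z = ±1 : ℤˣ`) stands for the factor `z ^ l / l ^ a`; a word for the sum over
`l_1 > l_2 > ...` of the products of the factors of its letters.
-/

open Filter Topology

namespace Pool.Agent.W245.AL

noncomputable section

/-- truncated alternating multiple sums (`l_1 ≤ N`) -/
def H : List (ℕ × ℤˣ) → ℕ → ℝ
  | [], _ => 1
  | (l :: s), N => ∑ n ∈ Finset.range N, ((((l.2 : ℤˣ) : ℤ) : ℝ) ^ (n + 1) / ((n : ℝ) + 1) ^ l.1) * H s n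

/-- good letters: `a ≥ 2`, or `a = 1` and `z = -1` -/
def Good (l : ℕ × ℤˣ) : Prop := 2 ≤ l.1 ∨ (l.1 = 1 ∧ l.2 = -1)

/-- quasi-shuffle product -/
def st : List (ℕ × ℤˣ) → List (ℕ × ℤˣ) → List (List (ℕ × ℤˣ))
  | [], t => [t]
  | (a :: s), [] => [a :: s]
  | (a :: s), (b :: t) => (st s (b :: t)).map (List.cons a) ++ (st (a :: s) t).map (List.cons b) ++
      (st s t).map (List.cons (a.1 + b.1, a.2 * b.2))
termination_by s t => s.length + t.length

/-- STU: the product of two truncated sums -/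
def S_STU : Prop := ∀ (s t : List (ℕ × ℤˣ)) (N : ℕ), H s N * H t N = ((st s t).map (fun u => H u N)).sum

/-- WT: the words of the product -/
def S_WT : Prop := ∀ (s t : List (ℕ × ℤˣ)), (∀ l ∈ s, Good l) → (∀ l ∈ t, Good l) → ∀ u ∈ st s t,
  (∀ l ∈ u, Good l) ∧ (u.map Prod.fst).sum = (s.map Prod.fst).sum + (t.map Prod.fst).sum

/-- CNV: convergence -/
def S_CNV : Prop := ∀ s : List (ℕ × ℤˣ), (∀ l ∈ s, Good l) → ∃ x : ℝ, Tendsto (H s) atTop (𝓝 x)

/-- LOG: the alternating harmonic series -/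
def S_LOG : Prop := Tendsto (H [(1, -1)]) atTop (𝓝 (-Real.log 2))

/-- PI: the Basel sum -/
def S_PI : Prop := Tendsto (H [(2, 1)]) atTop (𝓝 (Real.pi ^ 2 / 6))

/-- TR: the quotient of `π ^ 2` and `(log 2) ^ 2` is transcendental -/
def S_TR : Prop := Transcendental ℚ (Real.pi ^ 2 / Real.log 2 ^ 2)

/-- ALG: if `log 2` and `π` are algebraically dependent, the relation is not linear in `log 2`:
`1, log 2` and `π ^ 2, ...` -/
def S_IRR : Prop := Transcendental ℚ (Real.log 2)

end

end Pool.Agent.W245.AL
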