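import Mathlib
import Pool.Agent.W245.AL.Stm
import Pool.Agent.H297R2.BakerThm
import Pool.Agent.H340R2.LW

set_option autoImplicit false

/-! # TR and IRR: transcendence of `π ^ 2 / (log 2) ^ 2` and of `log 2` -/

namespace Pool.Agent.W245.AL

namespace TR

theorem log2_ne : Real.log 2 ≠ 0 := (Real.log_pos (by norm_num)).ne'

theorem cexp_log2 : Complex.exp ((Real.log 2 : ℝ) : ℂ) = 2 := by
  rw [← Complex.ofReal_exp, Real.exp_log (by norm_num)]
  norm_num

theorem alg2 : IsAlgebraic ℚ (2 : ℂ) := by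
  simpa using isAlgebraic_algebraMap (R := ℚ) (A := ℂ) 2

theorem lin' (a b : ℝ) (ha : a ≠ 0) (hb : b ≠ 0) :
    LinearIndependent ℚ ![(a : ℂ) * Complex.I, (b : ℂ)] := by
  rw [LinearIndependent.pair_iff]
  intro s t h
  rw [Rat.smul_def, Rat.smul_def] at h
  have h1 := congrArg Complex.re h
  have h2 := congrArg Complex.im h
  simp at h1 h2
  constructor
  · rcases h2 with h2 | h2
    · exact h2
    · exact absurd h2 ha
  · rcases h1 with h1 | h1
    · exact h1
    · exact absurd h1 hb

theorem lin : LinearIndependent ℚ ![(Real.pi : ℂ) * Complex.I, ((Real.log 2 : ℝ) : ℂ)] :=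
  lin' _ _ Real.pi_ne_zero log2_ne

theorem core : Transcendental ℚ (((Real.pi / Real.log 2 : ℝ)) : ℂ) := by
  intro h
  have hb := Pool.Agent.H297R2.baker (ι := Fin 2) ![(Real.pi : ℂ) * Complex.I, ((Real.log 2 : ℝ) : ℂ)]
    (by
      intro i
      fin_cases i
      · simp only [Fin.zero_eta, Matrix.cons_val_zero]
        rw [Complex.exp_pi_mul_I]
        exact isAlgebraic_one.neg
      · simp only [Fin.mk_one, Matrix.cons_val_one, Matrix.cons_val_fin_one]
        rw [cexp_log2]
        exact alg2)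
    lin ![1, -((((Real.pi / Real.log 2 : ℝ)) : ℂ) * Complex.I)]
    (by
      intro i
      fin_cases i
      · exact isAlgebraic_one
      · exact (h.mul Pool.Agent.H340R2.LW.isAlgebraic_I).neg)
    (by
      have h2 : ((Real.log 2 : ℝ) : ℂ) ≠ 0 := by exact_mod_cast log2_ne
      rw [Fin.sum_univ_two]
      simp only [Matrix.cons_val_zero, Matrix.cons_val_one, Matrix.cons_val_fin_one]
      rw [Complex.ofReal_div]
      field_simp
      ring)
  have := hb 0
  simp at this

end TR

theorem t_tr : S_TR := by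
  intro h
  apply TR.core
  have h1 : IsAlgebraic ℚ ((Real.pi / Real.log 2) ^ 2) := by
    rw [div_pow]; exact h
  have h2 : IsAlgebraic ℚ (Real.pi / Real.log 2) := by
    exact h1.of_pow (by norm_num)
  exact h2.algebraMap (A := ℂ)

theorem t_irr : S_IRR := by
  intro h
  have h1 : IsAlgebraic ℚ (((Real.log 2 : ℝ)) : ℂ) := h.algebraMap (A := ℂ)
  have h2 := Pool.Agent.H340R2.LW.transcendental_cexp _ h1 (by exact_mod_cast TR.log2_ne)
  rw [TR.cexp_log2] at h2
  exact h2 TR.alg2

end Pool.Agent.W245.AL
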