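import Pool.Agent.W245.AL.STU
import Pool.Agent.W245.AL.CNV
import Pool.Agent.W245.AL.LOG
import Pool.Agent.W245.AL.TR

set_option autoImplicit false

/-!
# Alternating multiple zeta values: the lower bound
-/

open Filter Topology

namespace Pool.Agent.W245.AL

noncomputable section

/-- span of the values of the words with good letters -/
def G (w : ℕ) : Submodule ℚ ℝ :=
  Submodule.span ℚ {x : ℝ | ∃ s : List (ℕ × ℤˣ), (∀ l ∈ s, Good l) ∧ (s.map Prod.fst).sum = w ∧
    Tendsto (H s) atTop (𝓝 x)}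

theorem list_lim (w : ℕ) (L : List (List (ℕ × ℤˣ)))
    (hL : ∀ u ∈ L, (∀ l ∈ u, Good l) ∧ (u.map Prod.fst).sum = w) :
    ∃ z ∈ G w, Tendsto (fun N => (L.map (fun u => H u N)).sum) atTop (𝓝 z) := by
  induction L with
  | nil => exact ⟨0, Submodule.zero_mem _, by simp⟩
  | cons u L ih =>
    obtain ⟨z, hz, hz2⟩ := ih fun v hv => hL v (List.mem_cons_of_mem _ hv)
    obtain ⟨h1, h2⟩ := hL u List.mem_cons_self
    obtain ⟨x, hx⟩ := t_cnv u h1
    refine ⟨x + z, Submodule.add_mem _ (Submodule.subset_span ⟨u, h1, h2, hx⟩) hz, ?_⟩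
    simpa using hx.add hz2

theorem G_mul (a b : ℕ) (x y : ℝ) (hx : x ∈ G a) (hy : y ∈ G b) : x * y ∈ G (a + b) := by
  have hab : G a * G b ≤ G (a + b) := by
    unfold G
    rw [Submodule.span_mul_span, Submodule.span_le]
    rintro _ ⟨x, ⟨s, hs, hsa, hx⟩, y, ⟨t, ht, htb, hy⟩, rfl⟩
    obtain ⟨z, hz, hz2⟩ := list_lim (a + b) (st s t) fun u hu => by
      obtain ⟨h1, h2⟩ := t_wt s t hs ht u hu
      exact ⟨h1, by rw [h2, hsa, htb]⟩
    have h3 : Tendsto (fun N => H s N * H t N) atTop (𝓝 z) := by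
      refine hz2.congr fun N => ?_
      exact (t_stu s t N).symm
    have h4 : x * y = z := tendsto_nhds_unique (hx.mul hy) h3
    simp only [SetLike.mem_coe]
    rw [h4]
    exact hz
  exact hab (Submodule.mul_mem_mul hx hy)

theorem G_one : (1 : ℝ) ∈ G 0 := by
  refine Submodule.subset_span ⟨[], by simp, by simp, ?_⟩
  have : H [] = fun _ => 1 := by
    funext N
    rfl
  rw [this]
  exact tendsto_const_nhds

theorem G_pow (a : ℕ) (x : ℝ) (hx : x ∈ G a) (i : ℕ) : x ^ i ∈ G (a * i) := by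
  induction i with
  | zero => simpa using G_one
  | succ i ih =>
    rw [pow_succ, mul_add, mul_one]
    exact G_mul _ _ _ _ ih hx

theorem log_mem : Real.log 2 ∈ G 1 := by
  have h : -Real.log 2 ∈ G 1 :=
    Submodule.subset_span ⟨[(1, -1)], by simp [Good], by simp, t_log⟩
  simpa using Submodule.neg_mem _ h

theorem pi_mem : Real.pi ^ 2 ∈ G 2 := by
  have h : Real.pi ^ 2 / 6 ∈ G 2 :=
    Submodule.subset_span ⟨[(2, 1)], by simp [Good], by simp, t_pi⟩
  have h2 := Submodule.smul_mem _ (6 : ℚ) h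
  rw [Rat.smul_def] at h2
  have e : ((6 : ℚ) : ℝ) * (Real.pi ^ 2 / 6) = Real.pi ^ 2 := by
    push_cast
    ring
  rwa [e] at h2

theorem mon_mem (w b : ℕ) (hb : 2 * b ≤ w) :
    Real.log 2 ^ w * (Real.pi ^ 2 / Real.log 2 ^ 2) ^ b ∈ G w := by
  have h := G_mul (1 * (w - 2 * b)) (2 * b) _ _ (G_pow 1 _ log_mem (w - 2 * b)) (G_pow 2 _ pi_mem b)
  have e1 : 1 * (w - 2 * b) + 2 * b = w := by omega
  rw [e1] at h
  have hl : Real.log 2 ≠ 0 := (Real.log_pos (by norm_num)).ne'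
  have e2 : Real.log 2 ^ w * (Real.pi ^ 2 / Real.log 2 ^ 2) ^ b =
      Real.log 2 ^ (w - 2 * b) * (Real.pi ^ 2) ^ b := by
    have e3 : Real.log 2 ^ w = Real.log 2 ^ (w - 2 * b) * (Real.log 2 ^ 2) ^ b := by
      rw [← pow_mul, ← pow_add]
      congr 1
      omega
    rw [e3, div_pow]
    field_simp
  rw [e2]
  exact h

theorem rank_G (w : ℕ) : ((w / 2 + 1 : ℕ) : Cardinal) ≤ Module.rank ℚ (G w) := by
  have hl : Real.log 2 ^ w ≠ 0 := pow_ne_zero _ (Real.log_pos (by norm_num)).ne'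
  have hinj := transcendental_iff_injective.1 t_tr
  have h1 := (Polynomial.basisMonomials ℚ).linearIndependent.map'
    (Polynomial.aeval (Real.pi ^ 2 / Real.log 2 ^ 2)).toLinearMap (LinearMap.ker_eq_bot.2 hinj)
  have h2 := h1.map' (LinearMap.mulLeft ℚ (Real.log 2 ^ w))
    (LinearMap.ker_eq_bot.2 (mul_right_injective₀ hl))
  have h3 := h2.comp (fun b : Fin (w / 2 + 1) => (b : ℕ)) Fin.val_injective
  let v : Fin (w / 2 + 1) → G w := fun b =>
    ⟨Real.log 2 ^ w * (Real.pi ^ 2 / Real.log 2 ^ 2) ^ (b : ℕ), mon_mem w b (by have := b.2; omega)⟩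
  have hv : LinearIndependent ℚ v := by
    refine LinearIndependent.of_comp (G w).subtype ?_
    have e : ((G w).subtype ∘ v) = ((LinearMap.mulLeft ℚ (Real.log 2 ^ w)) ∘
        ((Polynomial.aeval (Real.pi ^ 2 / Real.log 2 ^ 2)).toLinearMap ∘ (Polynomial.basisMonomials ℚ))) ∘
        (fun b : Fin (w / 2 + 1) => (b : ℕ)) := by
      funext b
      simp [v, Polynomial.aeval_monomial]
    rw [e]
    exact h3
  simpa using hv.cardinal_le_rank

end

end Pool.Agent.W245.AL
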