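import Pool.Agent.W245.AL.Fin

set_option autoImplicit false

/-!
# Alternating multiple zeta values: a lower bound for the dimension in every weight

The space `Z_w(2)` spanned over `ℚ` by the alternating multiple zeta values of weight `w` has dimension
at least `⌊w/2⌋ + 1`.
-/

open Filter Topology

namespace Pool.Agent.W245.AL.LowerBound

/-- The truncated sums.  The word `[(a_1, z_1), …, (a_n, z_n)]` gives the sum over
`N ≥ l_1 > l_2 > ⋯ > l_n ≥ 1` of the products of the numbers `z_j ^ l_j / l_j ^ a_j`. -/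
noncomputable def partialSum : List (ℕ × ℤˣ) → ℕ → ℝ
  | [], _ => 1
  | (l :: s), N => ∑ n ∈ Finset.range N,
      ((((l.2 : ℤˣ) : ℤ) : ℝ) ^ (n + 1) / ((n : ℝ) + 1) ^ l.1) * partialSum s n

/-- `Z_w(2)`: the `ℚ`-span of the values `Li_{a_1,…,a_n}(z_1,…,z_n)`, the limits of the truncated sums,
with `n ≥ 1`, all `a_j ≥ 1`, all `z_j = ±1`, `a_1 + ⋯ + a_n = w` and `(a_1, z_1) ≠ (1, 1)`. -/
noncomputable def Z (w : ℕ) : Submodule ℚ ℝ :=
  Submodule.span ℚ {x : ℝ | ∃ s : List (ℕ × ℤˣ), s ≠ [] ∧ (∀ l ∈ s, 1 ≤ l.1) ∧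
    s.head? ≠ some (1, 1) ∧ (s.map Prod.fst).sum = w ∧ Tendsto (partialSum s) atTop (𝓝 x)}

theorem partialSum_eq (s : List (ℕ × ℤˣ)) : partialSum s = Pool.Agent.W245.AL.H s := by
  induction s with
  | nil => rfl
  | cons l s ih =>
    funext N
    rw [partialSum, Pool.Agent.W245.AL.H, ih]

theorem G_le (w : ℕ) (hw : 1 ≤ w) : Pool.Agent.W245.AL.G w ≤ Z w := by
  unfold Pool.Agent.W245.AL.G Z
  rw [Submodule.span_le]
  rintro x ⟨s, h1, h2, h3⟩
  refine Submodule.subset_span ⟨s, ?_, fun l hl => ?_, ?_, h2, ?_⟩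
  · rintro rfl
    simp at h2
    omega
  · rcases h1 l hl with h | h
    · omega
    · omega
  · intro h
    have hm := List.mem_of_mem_head? h
    rcases h1 _ hm with h4 | h4
    · simp at h4
    · exact absurd h4.2 (by decide)
  · rw [partialSum_eq]
    exact h3

theorem result (w : ℕ) (hw : 1 ≤ w) : ((w / 2 + 1 : ℕ) : Cardinal) ≤ Module.rank ℚ (Z w) :=
  (Pool.Agent.W245.AL.rank_G w).trans (Submodule.rank_mono (G_le w hw))

end Pool.Agent.W245.AL.LowerBound
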