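import Pool.Agent.W245.AL.Stm

set_option autoImplicit false

/-!
# Alternating multiple zeta values: the quasi-shuffle product of the truncated sums
-/

open Filter Topology

namespace Pool.Agent.W245.AL

noncomputable section

namespace STU

/-- the factor of a letter -/
def fac (l : ℕ × ℤˣ) (n : ℕ) : ℝ := (((l.2 : ℤˣ) : ℤ) : ℝ) ^ (n + 1) / ((n : ℝ) + 1) ^ l.1

theorem fac_mul (a b : ℕ × ℤˣ) (n : ℕ) : fac (a.1 + b.1, a.2 * b.2) n = fac a n * fac b n := by
  unfold fac
  simp only [Units.val_mul, Int.cast_mul]
  rw [mul_pow, pow_add ((n : ℝ) + 1), div_mul_div_comm]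

theorem H_nil (N : ℕ) : H [] N = 1 := by simp [H]

theorem H_cons (a : ℕ × ℤˣ) (s : List (ℕ × ℤˣ)) (N : ℕ) :
    H (a :: s) N = ∑ n ∈ Finset.range N, fac a n * H s n := by rw [H]; rfl

theorem H_cons_zero (a : ℕ × ℤˣ) (s : List (ℕ × ℤˣ)) : H (a :: s) 0 = 0 := by simp [H_cons]

theorem H_cons_succ (a : ℕ × ℤˣ) (s : List (ℕ × ℤˣ)) (N : ℕ) :
    H (a :: s) (N + 1) = H (a :: s) N + fac a N * H s N := by
  rw [H_cons, Finset.sum_range_succ, ← H_cons]

theorem sum_map_H_succ (a : ℕ × ℤˣ) (L : List (List (ℕ × ℤˣ))) (N : ℕ) :
    ((L.map (List.cons a)).map (fun u => H u (N + 1))).sum =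
      ((L.map (List.cons a)).map (fun u => H u N)).sum +
        fac a N * (L.map (fun u => H u N)).sum := by
  induction L with
  | nil => simp
  | cons u L ih =>
    simp only [List.map_cons, List.sum_cons] at ih ⊢
    rw [ih, H_cons_succ]
    ring

theorem sum_map_H_zero (a : ℕ × ℤˣ) (L : List (List (ℕ × ℤˣ))) :
    ((L.map (List.cons a)).map (fun u => H u 0)).sum = 0 := by
  induction L with
  | nil => simp
  | cons u L ih =>
    simp only [List.map_cons, List.sum_cons] at ih ⊢
    rw [ih, H_cons_zero]
    ring

end STU

open STU in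
theorem t_stu : S_STU := by
  intro s t N
  induction s, t using st.induct generalizing N with
  | case1 t => simp [st, H_nil]
  | case2 a s => simp [st, H_nil]
  | case3 a s b t ih1 ih2 ih3 =>
    rw [st]
    simp only [List.map_append, List.sum_append]
    induction N with
    | zero =>
      rw [H_cons_zero, H_cons_zero]
      have e1 := sum_map_H_zero a (st s (b :: t))
      have e2 := sum_map_H_zero b (st (a :: s) t)
      have e3 := sum_map_H_zero (a.1 + b.1, a.2 * b.2) (st s t)
      rw [e1, e2, e3]
      ring
    | succ N ihN =>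
      have e1 := sum_map_H_succ a (st s (b :: t)) N
      have e2 := sum_map_H_succ b (st (a :: s) t) N
      have e3 := sum_map_H_succ (a.1 + b.1, a.2 * b.2) (st s t) N
      rw [e1, e2, e3, ← ih1 N, ← ih2 N, ← ih3 N, H_cons_succ, H_cons_succ, fac_mul]
      linear_combination ihN

theorem t_wt : S_WT := by
  intro s t
  induction s, t using st.induct with
  | case1 t => intro hs ht u hu; simp only [st, List.mem_singleton] at hu; subst hu; simpa using ht
  | case2 a s => intro hs ht u hu; simp only [st, List.mem_singleton] at hu; subst hu; simpa using hs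
  | case3 a s b t ih1 ih2 ih3 =>
    intro hs ht
    have ha : Good a := hs a (by simp)
    have hb : Good b := ht b (by simp)
    have hs' : ∀ c ∈ s, Good c := fun c hc => hs c (by simp [hc])
    have ht' : ∀ c ∈ t, Good c := fun c hc => ht c (by simp [hc])
    intro u hu
    rw [st] at hu
    simp only [List.mem_append, List.mem_map] at hu
    rcases hu with (⟨v, hv, rfl⟩ | ⟨v, hv, rfl⟩) | ⟨v, hv, rfl⟩
    · have h := ih1 hs' ht v hv
      refine ⟨?_, ?_⟩
      · intro c hc
        rcases List.mem_cons.1 hc with rfl | hc
        · exact ha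
        · exact h.1 c hc
      · have h2 := h.2
        simp only [List.map_cons, List.sum_cons] at h2 ⊢
        omega
    · have h := ih2 hs ht' v hv
      refine ⟨?_, ?_⟩
      · intro c hc
        rcases List.mem_cons.1 hc with rfl | hc
        · exact hb
        · exact h.1 c hc
      · have h2 := h.2
        simp only [List.map_cons, List.sum_cons] at h2 ⊢
        omega
    · have h := ih3 hs' ht' v hv
      refine ⟨?_, ?_⟩
      · intro c hc
        rcases List.mem_cons.1 hc with rfl | hc
        · left
          show 2 ≤ a.1 + b.1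
          have h1 : 1 ≤ a.1 := by rcases ha with h | ⟨h, _⟩ <;> omega
          have h2 : 1 ≤ b.1 := by rcases hb with h | ⟨h, _⟩ <;> omega
          omega
        · exact h.1 c hc
      · have h2 := h.2
        simp only [List.map_cons, List.sum_cons] at h2 ⊢
        omega

end

end Pool.Agent.W245.AL
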